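import Pool.Agent.Helper125_GL.Final

/-!
Let `V` be a vector space of infinite dimension `κ` over a field `F` with `κ < |F|`.
If a subgroup `H` of `GL(V)` induces the full group `GL(U)` on every large subspace `U`
(that is, `dim U = κ = dim V/U`), then `H = GL(V)`.
-/

namespace Pool.Agent.Results.MP_2f8bd9_al.LargeField

open Cardinal

universe u v

theorem result {F : Type u} {V : Type v} [Field F] [AddCommGroup V] [Module F V]
    (hV : ℵ₀ ≤ Module.rank F V)
    (hF : Cardinal.lift.{u} (Module.rank F V) < Cardinal.lift.{v} #F)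
    (H : Subgroup (V ≃ₗ[F] V))
    (hH : ∀ U : Submodule F V, Module.rank F U = Module.rank F V →
      Module.rank F (V ⧸ U) = Module.rank F V →
      ∀ g : U ≃ₗ[F] U, ∃ h ∈ H, ∀ u : U, h (u : V) = ((g u : U) : V)) :
    H = ⊤ :=
  Pool.Agent.Helper125GL.main hV hF hH

end Pool.Agent.Results.MP_2f8bd9_al.LargeField
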